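import Pool.Agent.SGL.StmtsA

/-!
# Squad SGL, row FLN: non-facial triangles after a flip, the converse
-/

set_option autoImplicit false

noncomputable section

namespace Pool.Agent.SGL.H86

open Pool.Agent.SGE Pool.Agent.SGP Pool.Agent.SGY Pool.Agent.SGD

theorem fln : FlnStmt := by
  intro V _ E Φ x y u v S f1 f2 huv hE
  have hE' : ¬ E v u := fun h => hE (S.sym _ _ h)
  have e1 : E x y := S.fe _ _ _ f1
  have e2 : E y u := S.fe _ _ _ (S.rot _ _ _ f1)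
  have e3 : E u x := S.fe _ _ _ (S.rot _ _ _ (S.rot _ _ _ f1))
  have e4 : E x v := S.fe _ _ _ (S.rot _ _ _ f2)
  have e5 : E v y := S.fe _ _ _ (S.rot _ _ _ (S.rot _ _ _ f2))
  have nd : ∀ {p q : V}, E p q → p ≠ q := fun h e => by subst e; exact S.irr _ h
  have d2 := nd e2
  have d3 := nd e3
  have d4 := nd e4
  have d5 := nd e5
  have key : ∀ p q r, E p q → E q r → E r p → ¬ Φ p q r → ¬ flF Φ x y u v p q r := by
    intro p q r a b c hn h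
    rcases h with (⟨h, -⟩ | ⟨rfl, rfl, rfl⟩ | ⟨rfl, rfl, rfl⟩ | ⟨rfl, rfl, rfl⟩) |
      ⟨rfl, rfl, rfl⟩ | ⟨rfl, rfl, rfl⟩ | ⟨rfl, rfl, rfl⟩
    · exact hn h
    all_goals first | exact hE a | exact hE b | exact hE c | exact hE' a | exact hE' b | exact hE' c
  refine ⟨fun p q r n h => ?_, fun z zx zy zu zv => ?_⟩
  · obtain ⟨a, b, c, f, g⟩ := n
    refine ⟨Or.inl ⟨a, ?_⟩, Or.inl ⟨b, ?_⟩, Or.inl ⟨c, ?_⟩, key _ _ _ a b c f,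
      key _ _ _ (S.sym _ _ a) (S.sym _ _ c) (S.sym _ _ b) g⟩
    · rintro (⟨rfl, rfl⟩ | ⟨rfl, rfl⟩)
      · exact h ⟨Or.inl rfl, Or.inr (Or.inl rfl)⟩
      · exact h ⟨Or.inr (Or.inl rfl), Or.inl rfl⟩
    · rintro (⟨rfl, rfl⟩ | ⟨rfl, rfl⟩)
      · exact h ⟨Or.inr (Or.inl rfl), Or.inr (Or.inr rfl)⟩
      · exact h ⟨Or.inr (Or.inr rfl), Or.inr (Or.inl rfl)⟩
    · rintro (⟨rfl, rfl⟩ | ⟨rfl, rfl⟩)
      · exact h ⟨Or.inr (Or.inr rfl), Or.inl rfl⟩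
      · exact h ⟨Or.inl rfl, Or.inr (Or.inr rfl)⟩
  · refine ⟨Or.inr (Or.inl ⟨rfl, rfl⟩), Or.inl ⟨S.sym _ _ zv, ?_⟩, Or.inl ⟨zu, ?_⟩, ?_, ?_⟩
    · rintro (⟨-, e⟩ | ⟨-, e⟩)
      · exact zy e
      · exact zx e
    · rintro (⟨e, -⟩ | ⟨e, -⟩)
      · exact zx e
      · exact zy e
    · rintro ((⟨h, -⟩ | ⟨e, -, -⟩ | ⟨e, -, -⟩ | ⟨-, -, e⟩) | ⟨-, e, -⟩ | ⟨e, -, -⟩ | ⟨e, -, -⟩)
      · exact hE (S.fe _ _ _ h)
      · exact huv e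
      · exact d2 e.symm
      · exact zy e
      · exact d4 e.symm
      · exact d3 e
      · exact huv e
    · rintro ((⟨h, -⟩ | ⟨-, e, -⟩ | ⟨e, -, -⟩ | ⟨e, -, -⟩) | ⟨e, -, -⟩ | ⟨e, -, -⟩ | ⟨-, -, e⟩)
      · exact hE' (S.fe _ _ _ h)
      · exact d2 e.symm
      · exact d5 e
      · exact huv e.symm
      · exact huv e.symm
      · exact d4 e.symm
      · exact zx e

end Pool.Agent.SGL.H86
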